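import Mathlib

/-!
Extensions of the AP-avoiding heap game with much denser sets of P-positions.
-/

namespace Pool.Agent.Results.MP_c84e26_co.DenseExtension

open Filter Finset

/-- `IsP R n`: `n` lies in the set `A_R` of P-positions of the ruleset `R`, i.e. there is no
`M ∈ R` with all elements at most `n` and `n - m ∈ A_R` for all `m ∈ M`. (The elements of the sets
of a ruleset are positive.) -/
def IsP (R : Set (Finset ℕ)) (n : ℕ) : Prop :=
  ¬ ∃ M ∈ R, (∀ m ∈ M, m ≤ n) ∧ ∀ m, m ∈ M → (h : 0 < m ∧ m ≤ n) → IsP R (n - m)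
termination_by n
decreasing_by omega

/-- The base ruleset `M_0 = {{d, 2d} : d ≥ 1}`. -/
def baseRules : Set (Finset ℕ) := {M | ∃ d : ℕ, 1 ≤ d ∧ M = {d, 2 * d}}

open Classical in
/-- `A_R(x)`, the number of `i < x` in `A_R`. -/
noncomputable def countP (R : Set (Finset ℕ)) (x : ℕ) : ℕ := #{i ∈ range x | IsP R i}

theorem isP_iff (R : Set (Finset ℕ)) (hR : ∀ M ∈ R, ∀ m ∈ M, 0 < m) (n : ℕ) :
    IsP R n ↔ ¬ ∃ M ∈ R, (∀ m ∈ M, m ≤ n) ∧ ∀ m ∈ M, IsP R (n - m) := by
  rw [IsP]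
  constructor
  · rintro h ⟨M, hM, h1, h2⟩
    exact h ⟨M, hM, h1, fun m hm _ => h2 m hm⟩
  · rintro h ⟨M, hM, h1, h2⟩
    exact h ⟨M, hM, h1, fun m hm => h2 m hm ⟨hR M hM m hm, h1 m hm⟩⟩

open Classical in
/-- The rule which kills `n`. -/
noncomputable def killer (A : Set ℕ) (n : ℕ) : Finset ℕ :=
  ({a ∈ range n | a ∈ A}).image (fun a => n - a)

/-- The added rules. -/
def added (A : Set ℕ) : Set (Finset ℕ) := {M | ∃ n, 2 ≤ n ∧ n ∉ A ∧ M = killer A n}

theorem mem_killer (A : Set ℕ) (n m : ℕ) : m ∈ killer A n ↔ ∃ a ∈ A, a < n ∧ n - a = m := by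
  classical
  simp only [killer, mem_image, mem_filter, mem_range]
  constructor
  · rintro ⟨a, ⟨h1, h2⟩, h3⟩; exact ⟨a, h2, h1, h3⟩
  · rintro ⟨a, h2, h1, h3⟩; exact ⟨a, ⟨h1, h2⟩, h3⟩

theorem added_pos (A : Set ℕ) : ∀ M ∈ added A, ∀ m ∈ M, 0 < m := by
  rintro M ⟨n, hn, hA, rfl⟩ m hm
  obtain ⟨a, -, h1, rfl⟩ := (mem_killer _ _ _).1 hm
  omega

theorem base_pos : ∀ M ∈ baseRules, ∀ m ∈ M, 0 < m := by
  rintro M ⟨d, hd, rfl⟩ m hm
  simp only [mem_insert, mem_singleton] at hm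
  rcases hm with rfl | rfl <;> omega

/-- The set of P-positions of the extension is `A`. -/
theorem isP_ext (A : Set ℕ) (h0 : 0 ∈ A) (h1 : 1 ∈ A) (hfree : ThreeAPFree A)
    (hcons : ∀ t, 1 ≤ t → t ∈ A → t + 1 ∉ A) (n : ℕ) :
    IsP (baseRules ∪ added A) n ↔ n ∈ A := by
  have hpos : ∀ M ∈ baseRules ∪ added A, ∀ m ∈ M, 0 < m := by
    rintro M (hM | hM)
    · exact base_pos M hM
    · exact added_pos A M hM
  induction n using Nat.strong_induction_on with
  | _ n ih =>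
    rw [isP_iff _ hpos]
    constructor
    · intro h
      by_contra hn
      have hn2 : 2 ≤ n := by
        by_contra hlt
        have : n = 0 ∨ n = 1 := by omega
        rcases this with rfl | rfl
        · exact hn h0
        · exact hn h1
      apply h
      refine ⟨killer A n, Or.inr ⟨n, hn2, hn, rfl⟩, ?_, ?_⟩
      · intro m hm
        obtain ⟨a, -, h2, rfl⟩ := (mem_killer _ _ _).1 hm
        omega
      · intro m hm
        obtain ⟨a, ha, h2, rfl⟩ := (mem_killer _ _ _).1 hm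
        have e : n - (n - a) = a := by omega
        rw [e]
        exact (ih a h2).2 ha
    · rintro hn ⟨M, hM, hle, hall⟩
      rcases hM with ⟨d, hd, rfl⟩ | ⟨k, hk, hkA, rfl⟩
      · have e1 := hle (2 * d) (by simp)
        have e2 := hall d (by simp)
        have e3 := hall (2 * d) (by simp)
        have e2 := (ih (n - d) (by omega)).1 e2
        have e3 := (ih (n - 2 * d) (by omega)).1 e3
        have := hfree e3 e2 hn (by omega)
        omega
      · have m0 : k ∈ killer A k := (mem_killer _ _ _).2 ⟨0, h0, by omega, by omega⟩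
        have m1 : k - 1 ∈ killer A k := (mem_killer _ _ _).2 ⟨1, h1, by omega, by omega⟩
        have e1 := hle k m0
        have hne : k ≠ n := by rintro rfl; exact hkA hn
        have e2 := hall k m0
        have e3 := hall (k - 1) m1
        have e2 := (ih (n - k) (by omega)).1 e2
        have e3 := (ih (n - (k - 1)) (by omega)).1 e3
        have e4 : n - (k - 1) = (n - k) + 1 := by omega
        rw [e4] at e3
        exact hcons (n - k) (by omega) e2 e3

/-- A large progression-free subset of `{0, …, 4^j - 1}`. -/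
noncomputable def B (j : ℕ) : Finset ℕ := (rothNumberNat_spec (4 ^ j)).choose

theorem B_sub (j : ℕ) : B j ⊆ range (4 ^ j) := (rothNumberNat_spec (4 ^ j)).choose_spec.1
theorem B_card (j : ℕ) : #(B j) = rothNumberNat (4 ^ j) :=
  (rothNumberNat_spec (4 ^ j)).choose_spec.2.1
theorem B_free (j : ℕ) : ThreeAPFree (B j : Set ℕ) := (rothNumberNat_spec (4 ^ j)).choose_spec.2.2

/-- The set of P-positions to be realised. -/
def theA : Set ℕ := {n | n = 0 ∨ n = 1 ∨ ∃ j, ∃ b ∈ B j, n = 4 * 4 ^ j + 2 * b}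

theorem block_bounds {n j b : ℕ} (hb : b ∈ B j) (hn : n = 4 * 4 ^ j + 2 * b) :
    4 * 4 ^ j ≤ n ∧ n < 6 * 4 ^ j := by
  have := mem_range.1 (B_sub j hb)
  omega

theorem block_eq {j k n : ℕ} (h1 : 4 * 4 ^ j ≤ n) (h2 : n < 6 * 4 ^ j)
    (h3 : 2 * 4 ^ k ≤ n) (h4 : n < 6 * 4 ^ k) : j = k := by
  rcases lt_trichotomy j k with h | h | h
  · exfalso
    have : 4 ^ (j + 1) ≤ 4 ^ k := Nat.pow_le_pow_right (by norm_num) h
    rw [pow_succ] at this
    omega
  · exact h
  · exfalso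
    have : 4 ^ (k + 1) ≤ 4 ^ j := Nat.pow_le_pow_right (by norm_num) h
    rw [pow_succ] at this
    omega

theorem theA_block {n k : ℕ} (hn : n ∈ theA) (h3 : 2 * 4 ^ k ≤ n) (h4 : n < 6 * 4 ^ k) :
    ∃ b ∈ B k, n = 4 * 4 ^ k + 2 * b := by
  have hk : 1 ≤ 4 ^ k := Nat.one_le_pow _ _ (by norm_num)
  rcases hn with rfl | rfl | ⟨j, b, hb, hn⟩
  · omega
  · omega
  · obtain ⟨h1, h2⟩ := block_bounds hb hn
    obtain rfl := block_eq h1 h2 h3 h4
    exact ⟨b, hb, hn⟩

theorem free_aux {a b c : ℕ} (ha : a ∈ theA) (hb : b ∈ theA) (hc : c ∈ theA)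
    (h : a + c = b + b) (hlt : a < c) : False := by
  have hc' := hc
  rcases hc' with rfl | rfl | ⟨k, z, hz, hzc⟩
  · omega
  · omega
  · obtain ⟨h1, h2⟩ := block_bounds hz hzc
    obtain ⟨y, hy, hyb⟩ := theA_block (k := k) hb (by omega) (by omega)
    have h3 := block_bounds hy hyb
    obtain ⟨x, hx, hxa⟩ := theA_block (k := k) ha (by omega) (by omega)
    have := B_free k (mem_coe.2 hx) (mem_coe.2 hy) (mem_coe.2 hz) (by omega)
    omega

theorem theA_free : ThreeAPFree theA := by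
  intro a ha b hb c hc h
  by_contra hne
  rcases lt_trichotomy a c with h1 | h1 | h1
  · exact free_aux ha hb hc h h1
  · omega
  · exact free_aux hc hb ha (by omega) h1

theorem theA_cons (t : ℕ) (ht : 1 ≤ t) (h : t ∈ theA) : t + 1 ∉ theA := by
  intro h'
  rcases h' with h' | h' | ⟨k, z, hz, hzc⟩
  · omega
  · omega
  · obtain ⟨h1, h2⟩ := block_bounds hz hzc
    have hk : 1 ≤ 4 ^ k := Nat.one_le_pow _ _ (by norm_num)
    obtain ⟨y, hy, hyb⟩ := theA_block (k := k) h (by omega) (by omega)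
    omega

theorem card_block (k x : ℕ) (hx : 6 * 4 ^ k ≤ x) :
    rothNumberNat (4 ^ k) ≤ countP (baseRules ∪ added theA) x := by
  classical
  rw [← B_card, countP]
  apply card_le_card_of_injOn (fun b => 4 * 4 ^ k + 2 * b)
  · intro b hb
    have hb' : b ∈ B k := hb
    have := block_bounds hb' rfl
    simp only [coe_filter, mem_range, Set.mem_ofPred_eq]
    refine ⟨by omega, ?_⟩
    rw [isP_ext theA (Or.inl rfl) (Or.inr (Or.inl rfl)) theA_free theA_cons]
    exact Or.inr (Or.inr ⟨k, b, hb', rfl⟩)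
  · intro a _ b _ h
    simp only at h
    omega

theorem lower (x : ℕ) (hx : 6 ≤ x) :
    (x : ℝ) / 24 * Real.exp (-4 * √(Real.log x)) ≤ countP (baseRules ∪ added theA) x := by
  set k := Nat.log 4 (x / 6) with hk
  have hx6 : x / 6 ≠ 0 := by omega
  have h1 : 4 ^ k ≤ x / 6 := Nat.pow_log_le_self 4 hx6
  have h2 : x / 6 < 4 ^ (k + 1) := Nat.lt_pow_succ_log_self (by norm_num) _
  have h3 : 6 * 4 ^ k ≤ x := by omega
  have h4 : x ≤ 24 * 4 ^ k := by rw [pow_succ] at h2; omega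
  have h5 := card_block k x h3
  have h6 := @Behrend.roth_lower_bound (4 ^ k)
  have h7 : ((rothNumberNat (4 ^ k) : ℕ) : ℝ) ≤ countP (baseRules ∪ added theA) x := by
    exact_mod_cast h5
  refine le_trans ?_ (le_trans h6 h7)
  have hN : (1 : ℝ) ≤ ((4 ^ k : ℕ) : ℝ) := by
    exact_mod_cast Nat.one_le_pow _ _ (by norm_num)
  have hNx : ((4 ^ k : ℕ) : ℝ) ≤ x := by
    have : 4 ^ k ≤ x := by omega
    exact_mod_cast this
  have hlog : Real.log ((4 ^ k : ℕ) : ℝ) ≤ Real.log x := Real.log_le_log (by linarith) hNx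
  have hs : √(Real.log ((4 ^ k : ℕ) : ℝ)) ≤ √(Real.log x) := Real.sqrt_le_sqrt hlog
  have h8 : (x : ℝ) / 24 ≤ ((4 ^ k : ℕ) : ℝ) := by
    have : (x : ℝ) ≤ 24 * ((4 ^ k : ℕ) : ℝ) := by exact_mod_cast h4
    linarith
  apply mul_le_mul h8 _ (Real.exp_pos _).le (by linarith)
  apply Real.exp_le_exp.2
  linarith

theorem eventually_lower (ε : ℝ) (hε : 0 < ε) :
    ∀ᶠ x : ℕ in atTop, (x : ℝ) ^ (1 - ε) ≤ countP (baseRules ∪ added theA) x := by
  have hL : Tendsto (fun x : ℕ => Real.log (x : ℝ)) atTop atTop :=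
    Real.tendsto_log_atTop.comp tendsto_natCast_atTop_atTop
  filter_upwards [hL.eventually_ge_atTop ((8 / ε) ^ 2),
    hL.eventually_ge_atTop (2 * Real.log 24 / ε), eventually_ge_atTop 6] with x h1 h2 h3
  have hx0 : (0 : ℝ) < x := by
    have : 0 < x := by omega
    exact_mod_cast this
  refine le_trans ?_ (lower x h3)
  set L := Real.log (x : ℝ) with hLdef
  have hLpos : 0 < L := lt_of_lt_of_le (by positivity) h1
  have hs1 : 8 / ε ≤ √L := by
    apply Real.le_sqrt_of_sq_le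
    exact h1
  have hs2 : √L * √L = L := Real.mul_self_sqrt hLpos.le
  have hs3 : 4 * √L ≤ ε / 2 * L := by
    have h8 : 8 ≤ ε * √L := by
      rw [div_le_iff₀ hε] at hs1
      linarith
    have : 8 * √L ≤ ε * √L * √L := mul_le_mul_of_nonneg_right h8 (Real.sqrt_nonneg _)
    rw [mul_assoc, hs2] at this
    linarith
  have hs4 : Real.log 24 ≤ ε / 2 * L := by
    rw [div_le_iff₀ hε] at h2
    linarith
  have e1 : (x : ℝ) ^ (1 - ε) = Real.exp (L * (1 - ε)) := by
    rw [Real.rpow_def_of_pos hx0]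
  have e2 : (x : ℝ) / 24 = Real.exp (L - Real.log 24) := by
    rw [Real.exp_sub, hLdef, Real.exp_log hx0, Real.exp_log (by norm_num)]
  rw [e1, e2, ← Real.exp_add]
  apply Real.exp_le_exp.2
  nlinarith

/-- There is an extension `R = M_0 ∪ M'` of the base ruleset with
`limsup A_R(x) / x^(log 2 / log 3) = ∞`, and even with `A_R(x) ≥ x^(1 - ε)` for all large `x`,
for every `ε > 0`. -/
theorem result : ∃ M' : Set (Finset ℕ), (∀ M ∈ M', M.Nonempty ∧ ∀ m ∈ M, 0 < m) ∧
    limsup (fun x : ℕ => (((countP (baseRules ∪ M') x : ℝ) /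
      (x : ℝ) ^ (Real.log 2 / Real.log 3) : ℝ) : EReal)) atTop = ⊤ ∧
    ∀ ε : ℝ, 0 < ε → ∀ᶠ x : ℕ in atTop, (x : ℝ) ^ (1 - ε) ≤ countP (baseRules ∪ M') x := by
  refine ⟨added theA, ?_, ?_, eventually_lower⟩
  · rintro M ⟨n, hn, hA, rfl⟩
    refine ⟨⟨n, (mem_killer _ _ _).2 ⟨0, Or.inl rfl, by omega, by omega⟩⟩, ?_⟩
    exact added_pos theA _ ⟨n, hn, hA, rfl⟩
  · apply Tendsto.limsup_eq
    rw [EReal.tendsto_coe_nhds_top_iff]
    have h23 : Real.log 2 / Real.log 3 < 1 := by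
      rw [div_lt_one (Real.log_pos (by norm_num))]
      exact Real.log_lt_log (by norm_num) (by norm_num)
    set θ := Real.log 2 / Real.log 3 with hθ
    have hε : 0 < (1 - θ) / 2 := by linarith
    have hT : Tendsto (fun x : ℕ => (x : ℝ) ^ ((1 - θ) / 2)) atTop atTop :=
      (tendsto_rpow_atTop hε).comp tendsto_natCast_atTop_atTop
    apply tendsto_atTop_mono' _ _ hT
    filter_upwards [eventually_lower ((1 - θ) / 2) hε, eventually_ge_atTop 1] with x h1 h2
    have hx0 : (0 : ℝ) < x := by exact_mod_cast h2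
    rw [le_div_iff₀ (Real.rpow_pos_of_pos hx0 _), ← Real.rpow_add hx0]
    refine le_trans (le_of_eq ?_) h1
    congr 1
    ring

end Pool.Agent.Results.MP_c84e26_co.DenseExtension
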